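import Mathlib

namespace Q222.TN

section
variable (F : Type) [Field F]

/-- Blocks. -/
abbrev Blk := (Fin 3 → F) × (Fin 3 → F) × F
/-- Left points. -/
abbrev LP := Fin 3 × (Fin 2 → F) × (Fin 3 → F) × F
/-- Right points. -/
abbrev RP := Fin 3 × (Fin 3 → F) × (Fin 2 → F) × F

variable {F}

/-- The left point with index `x` of a block. -/
def lp (x : Fin 3) (h : Blk F) : LP F := (x, x.removeNth h.1, h.2.1, h.2.2)

/-- The right point with index `y` of a block. -/
def rp (y : Fin 3) (h : Blk F) : RP F :=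
  (y, h.1, y.removeNth h.2.1, h.2.2 - h.2.1 y * ∑ t, h.1 t)

theorem removeNth_eq {x : Fin 3} {u v : Fin 3 → F} (h : x.removeNth u = x.removeNth v) (t : Fin 3)
    (ht : t ≠ x) : u t = v t := by
  obtain ⟨i, rfl⟩ := Fin.exists_succAbove_eq ht
  exact congrFun h i

theorem lp_eq {x x' : Fin 3} {h h' : Blk F} (e : lp x h = lp x' h') :
    x = x' ∧ (∀ t, t ≠ x → h.1 t = h'.1 t) ∧ h.2.1 = h'.2.1 ∧ h.2.2 = h'.2.2 := by
  simp only [lp, Prod.mk.injEq] at e
  obtain ⟨rfl, e1, e2, e3⟩ := e
  exact ⟨rfl, removeNth_eq e1, e2, e3⟩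

theorem rp_eq {y y' : Fin 3} {h h' : Blk F} (e : rp y h = rp y' h') :
    y = y' ∧ h.1 = h'.1 ∧ (∀ t, t ≠ y → h.2.1 t = h'.2.1 t) ∧
      h.2.2 - h.2.1 y * ∑ t, h.1 t = h'.2.2 - h'.2.1 y * ∑ t, h'.1 t := by
  simp only [rp, Prod.mk.injEq] at e
  obtain ⟨rfl, e1, e2, e3⟩ := e
  exact ⟨rfl, e1, removeNth_eq e2, e3⟩

theorem lp_of {x : Fin 3} {h h' : Blk F} (h1 : ∀ t, t ≠ x → h.1 t = h'.1 t) (h2 : h.2.1 = h'.2.1)
    (h3 : h.2.2 = h'.2.2) : lp x h = lp x h' := by
  simp only [lp, h2, h3]
  congr 2
  funext i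
  exact h1 _ (Fin.succAbove_ne _ _)

/-- Two points determine the block. -/
theorem uniq {x x' y y' : Fin 3} {h h' : Blk F} (e1 : lp x h = lp x' h') (e2 : rp y h = rp y' h') :
    x = x' ∧ y = y' ∧ h = h' := by
  obtain ⟨a1, -, a3, a4⟩ := lp_eq e1
  obtain ⟨b1, b2, -, -⟩ := rp_eq e2
  exact ⟨a1, b1, Prod.ext b2 (Prod.ext a3 a4)⟩

/-- A `2 × 2` rectangle of incidences lies in one block. -/
theorem rect {x1 x2 x1' x2' y1 y2 y1' y2' : Fin 3} {h11 h12 h21 h22 : Blk F}
    (e1 : lp x1 h11 = lp x1' h12) (e2 : lp x2 h21 = lp x2' h22)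
    (f1 : rp y1 h11 = rp y1' h21) (f2 : rp y2 h12 = rp y2' h22)
    (hi : lp x1 h11 ≠ lp x2 h21) (hj : rp y1 h11 ≠ rp y2 h12) :
    h11 = h12 ∧ h11 = h21 ∧ h11 = h22 := by
  obtain ⟨rfl, a1, a2, a3⟩ := lp_eq e1
  obtain ⟨rfl, b1, b2, b3⟩ := lp_eq e2
  obtain ⟨rfl, c1, c2, c3⟩ := rp_eq f1
  obtain ⟨rfl, d1, d2, d3⟩ := rp_eq f2
  by_cases hx : x1 = x2
  · subst hx
    exfalso
    by_cases hy : y1 = y2
    · subst hy
      -- both equal
      have hv : h11.2.1 y1 - h21.2.1 y1 ≠ 0 := by
        intro h0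
        have hvv : h11.2.1 = h21.2.1 := by
          funext t
          by_cases ht : t = y1
          · subst ht; exact sub_eq_zero.1 h0
          · exact c2 t ht
        have hz : h11.2.2 = h21.2.2 := by
          have := c3
          rw [hvv, c1] at this
          linear_combination this
        apply hi
        apply lp_of _ hvv hz
        intro t _
        rw [c1]
      have hS : (∑ t, h11.1 t) - ∑ t, h12.1 t ≠ 0 := by
        intro h0
        have hu : h11.1 = h12.1 := by
          funext t
          by_cases ht : t = x1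
          · subst ht
            have h1 : ∑ s, (h11.1 s - h12.1 s) = 0 := by rw [Finset.sum_sub_distrib]; exact h0
            rw [Finset.sum_eq_single t] at h1
            · exact sub_eq_zero.1 h1
            · intro s _ hs
              rw [a1 s hs, sub_self]
            · intro h; exact absurd (Finset.mem_univ _) h
          · exact a1 t ht
        have : h11 = h12 := Prod.ext hu (Prod.ext a2 a3)
        exact hj (by rw [this])
      have hc : h11.2.2 - h21.2.2 = (h11.2.1 y1 - h21.2.1 y1) * ∑ t, h11.1 t := by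
        have h3 := c3
        rw [← c1] at h3
        linear_combination h3
      have hd : h11.2.2 - h21.2.2 = (h11.2.1 y1 - h21.2.1 y1) * ∑ t, h12.1 t := by
        have h3 := d3
        rw [← d1, ← a2, ← a3, ← b2, ← b3] at h3
        linear_combination h3
      have : (h11.2.1 y1 - h21.2.1 y1) * ((∑ t, h11.1 t) - ∑ t, h12.1 t) = 0 := by
        linear_combination hd - hc
      rcases mul_eq_zero.1 this with h | h
      · exact hv h
      · exact hS h
    · have hvv : h11.2.1 = h21.2.1 := by
        funext t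
        by_cases ht : t = y1
        · subst ht
          have := d2 t hy
          rwa [← a2, ← b2] at this
        · exact c2 t ht
      have hz : h11.2.2 = h21.2.2 := by
        have := c3
        rw [hvv, c1] at this
        linear_combination this
      apply hi
      apply lp_of _ hvv hz
      intro t _
      rw [c1]
  · have hu : h11.1 = h12.1 := by
      funext t
      by_cases ht : t = x1
      · subst ht
        have := b1 t hx
        rwa [← c1, ← d1] at this
      · exact a1 t ht
    have e12 : h11 = h12 := Prod.ext hu (Prod.ext a2 a3)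
    have hu2 : h21.1 = h22.1 := by rw [← c1, ← d1, hu]
    have e34 : h21 = h22 := Prod.ext hu2 (Prod.ext b2 b3)
    subst e12
    subst e34
    have hy : y1 ≠ y2 := by
      rintro rfl
      exact hj rfl
    have hvv : h11.2.1 = h21.2.1 := by
      funext t
      by_cases ht : t = y1
      · subst ht
        exact d2 t hy
      · exact c2 t ht
    have hz : h11.2.2 = h21.2.2 := by
      have := c3
      rw [hvv, c1] at this
      linear_combination this
    have e13 : h11 = h21 := Prod.ext c1 (Prod.ext hvv hz)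
    exact ⟨rfl, e13, e13⟩

end

theorem card_Blk (p : ℕ) [NeZero p] : Fintype.card (Blk (ZMod p)) = p ^ 7 := by
  simp only [Blk, Fintype.card_prod, Fintype.card_fun, Fintype.card_fin, ZMod.card]
  ring

theorem card_LP (p : ℕ) [NeZero p] : Fintype.card (LP (ZMod p)) = 3 * p ^ 6 := by
  simp only [LP, Fintype.card_prod, Fintype.card_fun, Fintype.card_fin, ZMod.card]
  ring

theorem card_RP (p : ℕ) [NeZero p] : Fintype.card (RP (ZMod p)) = 3 * p ^ 6 := by
  simp only [RP, Fintype.card_prod, Fintype.card_fun, Fintype.card_fin, ZMod.card]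
  ring

end Q222.TN
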