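import Pool.Agent.Q222.TN.Defs

namespace Q222.TN

/-- States of a chain automaton with hubs. -/
inductive St (I J G : Type) (m : ℕ)
  | start
  | left (i : I) (t : Fin m)
  | hub (g : G)
  | right (j : J) (t : Fin m)
  | acc

variable {I J G σ : Type} {m : ℕ}

/-- The state set as a sum. -/
def stEquiv : St I J G m ≃ (Unit ⊕ Unit) ⊕ (G ⊕ ((I × Fin m) ⊕ (J × Fin m))) where
  toFun
    | .start => .inl (.inl ())
    | .acc => .inl (.inr ())
    | .hub g => .inr (.inl g)
    | .left i t => .inr (.inr (.inl (i, t)))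
    | .right j t => .inr (.inr (.inr (j, t)))
  invFun
    | .inl (.inl ()) => .start
    | .inl (.inr ()) => .acc
    | .inr (.inl g) => .hub g
    | .inr (.inr (.inl (i, t))) => .left i t
    | .inr (.inr (.inr (j, t))) => .right j t
  left_inv x := by cases x <;> rfl
  right_inv x := by rcases x with (x | x) | (x | (x | x)) <;> rfl

instance [Fintype I] [Fintype J] [Fintype G] : Fintype (St I J G m) :=
  Fintype.ofEquiv _ stEquiv.symm

theorem card_St [Fintype I] [Fintype J] [Fintype G] :
    Fintype.card (St I J G m) =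
      2 + Fintype.card G + (Fintype.card I + Fintype.card J) * m := by
  rw [Fintype.card_congr (stEquiv (I := I) (J := J) (G := G) (m := m))]
  simp only [Fintype.card_sum, Fintype.card_prod, Fintype.card_fin, Fintype.card_unit]
  ring

section
variable {EL ER : Type} (p : I → List σ) (q : J → List σ) (hp : ∀ i, (p i).length = m + 1)
  (hq : ∀ j, (q j).length = m + 1) (l1 : EL → I) (l2 : EL → G) (r1 : ER → G) (r2 : ER → J)

/-- State after `t` letters of the left word of `i`. -/
def posL (i : I) (t : ℕ) : St I J G m :=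
  if t = 0 then .start else if h : t - 1 < m then .left i ⟨t - 1, h⟩ else .acc

/-- State after `t ≥ 1` letters of the right word of `j`. -/
def posR (j : J) (t : ℕ) : St I J G m :=
  if h : t - 1 < m then .right j ⟨t - 1, h⟩ else .acc

/-- The transitions. -/
def edge : (I × Fin m) ⊕ EL ⊕ ER ⊕ (J × Fin m) → St I J G m × σ × St I J G m
  | .inl (i, t) => (posL i t, (p i)[(t : ℕ)]'(by rw [hp]; omega), posL i (t + 1))
  | .inr (.inl e) => (posL (l1 e) m, (p (l1 e))[m]'(by rw [hp]; omega), .hub (l2 e))
  | .inr (.inr (.inl f)) => (.hub (r1 f), (q (r2 f))[0]'(by rw [hq]; omega), posR (r2 f) 1)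
  | .inr (.inr (.inr (j, t))) =>
      (posR j (t + 1), (q j)[(t : ℕ) + 1]'(by rw [hq]; omega), posR j (t + 2))

/-- Residual predicate. -/
def Ok : St I J G m → List σ → Prop
  | .acc, w => w = []
  | .right j t, w => w = (q j).drop (t + 1)
  | .hub g, w => ∃ f, r1 f = g ∧ w = q (r2 f)
  | .left i t, w => ∃ e f, l1 e = i ∧ l2 e = r1 f ∧ w = (p i).drop (t + 1) ++ q (r2 f)
  | .start, w => ∃ e f, l2 e = r1 f ∧ w = p (l1 e) ++ q (r2 f)

open Classical in
/-- The chain automaton. -/
noncomputable def chainNFA [Fintype I] [Fintype J] [Fintype EL] [Fintype ER] :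
    NFA1 σ (St I J G m) where
  start := .start
  acc := {.acc}
  tr := Finset.univ.image (edge p q hp hq l1 l2 r1 r2)

theorem chain_card [Fintype I] [Fintype J] [Fintype EL] [Fintype ER] :
    (chainNFA p q hp hq l1 l2 r1 r2).tr.card ≤
      Fintype.card I * m + Fintype.card EL + Fintype.card ER + Fintype.card J * m := by
  classical
  refine le_trans Finset.card_image_le ?_
  rw [Finset.card_univ]
  simp only [Fintype.card_sum, Fintype.card_prod, Fintype.card_fin]
  omega

theorem mem_chain [Fintype I] [Fintype J] [Fintype EL] [Fintype ER]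
    (x : St I J G m × σ × St I J G m) :
    x ∈ (chainNFA p q hp hq l1 l2 r1 r2).tr ↔ ∃ e, edge p q hp hq l1 l2 r1 r2 e = x := by
  classical
  simp [chainNFA]

theorem ok_nil (hp : ∀ i, (p i).length = m + 1) (hq : ∀ j, (q j).length = m + 1)
    (s : St I J G m) : Ok p q l1 l2 r1 r2 s [] ↔ s = .acc := by
  cases s with
  | acc => simp [Ok]
  | start =>
    simp only [Ok, reduceCtorEq, iff_false]
    rintro ⟨e, f, -, h⟩
    have := congrArg List.length h
    simp only [List.length_nil, List.length_append, hp, hq] at this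
    omega
  | left i t =>
    simp only [Ok, reduceCtorEq, iff_false]
    rintro ⟨e, f, -, -, h⟩
    have := congrArg List.length h
    simp only [List.length_nil, List.length_append, hq] at this
    omega
  | hub g =>
    simp only [Ok, reduceCtorEq, iff_false]
    rintro ⟨f, -, h⟩
    have := congrArg List.length h
    simp only [List.length_nil, hq] at this
    omega
  | right j t =>
    simp only [Ok, reduceCtorEq, iff_false]
    intro h
    have := congrArg List.length h
    simp only [List.length_nil, List.length_drop, hq] at this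
    omega

theorem posL_zero (i : I) : (posL i 0 : St I J G m) = .start := by simp [posL]

theorem posL_succ (i : I) {t : ℕ} (h : t < m) : (posL i (t + 1) : St I J G m) = .left i ⟨t, h⟩ := by
  simp [posL, h]

theorem posL_of (i : I) {n : ℕ} (t : Fin m) (h : n = (t : ℕ) + 1) :
    (posL i n : St I J G m) = .left i t := by
  subst h
  exact posL_succ i t.2

theorem posR_succ (j : J) {t : ℕ} (h : t < m) : (posR j (t + 1) : St I J G m) = .right j ⟨t, h⟩ := by
  simp [posR, h]

theorem posR_last (j : J) : (posR j (m + 1) : St I J G m) = .acc := by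
  simp [posR]

/-- `Ok` at the state `posL`. -/
theorem ok_posL {i : I} {t : ℕ} (h : t + 1 ≤ m) (w : List σ) :
    Ok p q l1 l2 r1 r2 (posL i (t + 1) : St I J G m) w ↔
      ∃ e f, l1 e = i ∧ l2 e = r1 f ∧ w = (p i).drop (t + 1) ++ q (r2 f) := by
  rw [posL_succ i h]
  rfl

theorem ok_posR (hq : ∀ j, (q j).length = m + 1) {j : J} {t : ℕ} (h : t ≤ m) (w : List σ) :
    Ok p q l1 l2 r1 r2 (posR j (t + 1) : St I J G m) w ↔ w = (q j).drop (t + 1) := by
  rcases Nat.lt_or_ge t m with h1 | h1
  · rw [posR_succ j h1]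
    rfl
  · have : t = m := le_antisymm h h1
    subst this
    rw [posR_last]
    have : (q j).drop (t + 1) = [] := by rw [List.drop_eq_nil_iff, hq]
    rw [this]
    rfl

theorem ok_cons [Fintype I] [Fintype J] [Fintype EL] [Fintype ER] (hm : 0 < m)
    (s : St I J G m) (a : σ) (w : List σ) :
    Ok p q l1 l2 r1 r2 s (a :: w) ↔
      ∃ s', (s, a, s') ∈ (chainNFA p q hp hq l1 l2 r1 r2).tr ∧ Ok p q l1 l2 r1 r2 s' w := by
  constructor
  · intro h
    cases s with
    | acc => simp [Ok] at h
    | start =>
      obtain ⟨e, f, h1, h2⟩ := h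
      refine ⟨posL (l1 e) 1, (mem_chain p q hp hq l1 l2 r1 r2 _).2 ⟨.inl (l1 e, ⟨0, hm⟩), ?_⟩, ?_⟩
      · have h3 : (p (l1 e))[0]'(by rw [hp]; omega) = a := by
          have := congrArg (fun l => l[0]?) h2
          simp only [List.getElem?_cons_zero] at this
          rw [List.getElem?_append_left (by rw [hp]; omega),
            List.getElem?_eq_getElem (by rw [hp]; omega)] at this
          exact (Option.some.inj this).symm
        simp only [edge, posL_zero, h3, Nat.zero_add]
      · rw [ok_posL p q l1 l2 r1 r2 (t := 0) (by omega)]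
        refine ⟨e, f, rfl, h1, ?_⟩
        have := congrArg (List.drop 1) h2
        rw [List.drop_append_of_le_length (by rw [hp]; omega)] at this
        simpa using this
    | left i t =>
      obtain ⟨e, f, h0, h1, h2⟩ := h
      subst h0
      have hlen : (t : ℕ) + 1 < (p (l1 e)).length := by rw [hp]; omega
      rw [List.drop_eq_getElem_cons hlen, List.cons_append, List.cons_eq_cons] at h2
      rcases Nat.lt_or_ge ((t : ℕ) + 1) m with ht | ht
      · refine ⟨posL (l1 e) ((t : ℕ) + 1 + 1),
          (mem_chain p q hp hq l1 l2 r1 r2 _).2 ⟨.inl (l1 e, ⟨t + 1, ht⟩), ?_⟩, ?_⟩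
        · simp only [edge, h2.1]
          rw [posL_succ _ t.2]
        · rw [ok_posL p q l1 l2 r1 r2 (by omega)]
          exact ⟨e, f, rfl, h1, h2.2⟩
      · have htm : (t : ℕ) + 1 = m := by omega
        refine ⟨.hub (l2 e), (mem_chain p q hp hq l1 l2 r1 r2 _).2 ⟨.inr (.inl e), ?_⟩, ?_⟩
        · have e1 : (posL (l1 e) m : St I J G m) = .left (l1 e) t := posL_of _ t htm.symm
          have e2 : (p (l1 e))[m]'(by rw [hp]; omega) = a := by
            rw [h2.1]
            congr 1
            exact htm.symm
          simp only [edge, e1, e2]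
        · refine ⟨f, h1.symm, ?_⟩
          have : List.drop ((t : ℕ) + 1 + 1) (p (l1 e)) = [] := by
            rw [List.drop_eq_nil_iff, hp]; omega
          rw [h2.2, this, List.nil_append]
    | hub g =>
      obtain ⟨f, h1, h2⟩ := h
      subst h1
      refine ⟨posR (r2 f) 1, (mem_chain p q hp hq l1 l2 r1 r2 _).2 ⟨.inr (.inr (.inl f)), ?_⟩, ?_⟩
      · have h3 : (q (r2 f))[0]'(by rw [hq]; omega) = a := by
          have := congrArg (fun l => l[0]?) h2
          simp only [List.getElem?_cons_zero] at this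
          rw [List.getElem?_eq_getElem (by rw [hq]; omega)] at this
          exact (Option.some.inj this).symm
        simp only [edge, h3]
      · rw [ok_posR p q l1 l2 r1 r2 hq (t := 0) (by omega)]
        have := congrArg (List.drop 1) h2
        simpa using this
    | right j t =>
      have h2 : a :: w = (q j).drop (t + 1) := h
      have hlen : (t : ℕ) + 1 < (q j).length := by rw [hq]; omega
      rw [List.drop_eq_getElem_cons hlen, List.cons_eq_cons] at h2
      refine ⟨posR j (t + 2), (mem_chain p q hp hq l1 l2 r1 r2 _).2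
        ⟨.inr (.inr (.inr (j, t))), ?_⟩, ?_⟩
      · simp only [edge, h2.1]
        rw [posR_succ _ t.2]
      · rw [ok_posR p q l1 l2 r1 r2 hq (t := (t : ℕ) + 1) (by omega)]
        exact h2.2
  · rintro ⟨s', h1, h2⟩
    obtain ⟨e, he⟩ := (mem_chain p q hp hq l1 l2 r1 r2 _).1 h1
    rcases e with ⟨i, t⟩ | e | f | ⟨j, t⟩
    · simp only [edge, Prod.mk.injEq] at he
      obtain ⟨rfl, rfl, rfl⟩ := he
      rw [ok_posL p q l1 l2 r1 r2 (by omega)] at h2
      obtain ⟨e, f, a1, a2, a3⟩ := h2
      rcases t with ⟨t, ht⟩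
      cases t with
      | zero =>
        rw [posL_zero]
        refine ⟨e, f, a2, ?_⟩
        rw [a1]
        conv_rhs => rw [← List.drop_zero (l := p i), List.drop_eq_getElem_cons (by rw [hp]; omega)]
        rw [List.cons_append]
        exact congrArg _ a3
      | succ t =>
        rw [ok_posL p q l1 l2 r1 r2 (by omega)]
        refine ⟨e, f, a1, a2, ?_⟩
        rw [List.drop_eq_getElem_cons (by rw [hp]; omega), List.cons_append]
        exact congrArg _ a3
    · simp only [edge, Prod.mk.injEq] at he
      obtain ⟨rfl, rfl, rfl⟩ := he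
      obtain ⟨f, b1, b2⟩ := h2
      obtain ⟨m', rfl⟩ : ∃ m', m = m' + 1 := ⟨m - 1, by omega⟩
      rw [ok_posL p q l1 l2 r1 r2 (by omega)]
      refine ⟨e, f, rfl, b1.symm, ?_⟩
      rw [List.drop_eq_getElem_cons (by rw [hp]; omega), List.cons_append, b2]
      congr 1
      have : List.drop (m' + 1 + 1) (p (l1 e)) = [] := by
        rw [List.drop_eq_nil_iff, hp]
      rw [this, List.nil_append]
    · simp only [edge, Prod.mk.injEq] at he
      obtain ⟨rfl, rfl, rfl⟩ := he
      rw [ok_posR p q l1 l2 r1 r2 hq (t := 0) (by omega)] at h2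
      refine ⟨f, rfl, ?_⟩
      conv_rhs => rw [← List.drop_zero (l := q (r2 f)), List.drop_eq_getElem_cons (by rw [hq]; omega)]
      exact congrArg _ h2
    · simp only [edge, Prod.mk.injEq] at he
      obtain ⟨rfl, rfl, rfl⟩ := he
      rw [ok_posR p q l1 l2 r1 r2 hq (t := (t : ℕ) + 1) (by omega)] at h2
      rw [ok_posR p q l1 l2 r1 r2 hq (t := (t : ℕ)) (by omega)]
      rw [List.drop_eq_getElem_cons (by rw [hq]; omega)]
      exact congrArg _ h2

theorem chain_lang [Fintype I] [Fintype J] [Fintype EL] [Fintype ER] (hm : 0 < m) (w : List σ) :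
    w ∈ (chainNFA p q hp hq l1 l2 r1 r2).lang ↔ ∃ e f, l2 e = r1 f ∧ w = p (l1 e) ++ q (r2 f) := by
  refine (NFA1.lang_eq_of_ok _ (Ok p q l1 l2 r1 r2) ?_ ?_ w).trans Iff.rfl
  · intro s
    rw [ok_nil p q l1 l2 r1 r2 hp hq]
    rfl
  · intro s a w
    exact ok_cons p q hp hq l1 l2 r1 r2 hm s a w

end

end Q222.TN
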