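import Mathlib

namespace Q222.TN

/-- A nondeterministic finite automaton over the alphabet `σ` with state set `Q`, one start state,
a set of accepting states and a finite set of transitions `(q, a, q')`; no `ε`-transitions. -/
structure NFA1 (σ Q : Type) where
  /-- the start state -/
  start : Q
  /-- the accepting states -/
  acc : Set Q
  /-- the transitions -/
  tr : Finset (Q × σ × Q)

variable {σ Q : Type}

/-- `A.Run q w r`: some path labelled `w` leads from `q` to `r`. -/
def NFA1.Run (A : NFA1 σ Q) : Q → List σ → Q → Prop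
  | q, [], r => q = r
  | q, a :: w, r => ∃ s, (q, a, s) ∈ A.tr ∧ A.Run s w r

/-- The recognised language. -/
def NFA1.lang (A : NFA1 σ Q) : Language σ := {w | ∃ f ∈ A.acc, A.Run A.start w f}

/-- `L` is recognised by an NFA with exactly `n` states and `t` transitions. -/
def Recog (L : Language σ) (n t : ℕ) : Prop :=
  ∃ (Q : Type) (_ : Fintype Q) (A : NFA1 σ Q), Fintype.card Q = n ∧ A.tr.card = t ∧ A.lang = L

/-- Nondeterministic state complexity. -/
noncomputable def nsc (L : Language σ) : ℕ := sInf {n | ∃ t, Recog L n t}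

/-- Nondeterministic transition complexity. -/
noncomputable def tc (L : Language σ) : ℕ := sInf {t | ∃ n, Recog L n t}

/-- The least number of states of a transition-minimal NFA for `L`. -/
noncomputable def minT (L : Language σ) : ℕ := sInf {n | Recog L n (tc L)}

theorem NFA1.run_append (A : NFA1 σ Q) (u v : List σ) (q r : Q) :
    A.Run q (u ++ v) r ↔ ∃ s, A.Run q u s ∧ A.Run s v r := by
  induction u generalizing q with
  | nil => simp [NFA1.Run]
  | cons a u ih =>
    simp only [List.cons_append, NFA1.Run, ih]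
    constructor
    · rintro ⟨s, hs, t, h1, h2⟩
      exact ⟨t, ⟨s, hs, h1⟩, h2⟩
    · rintro ⟨t, ⟨s, hs, h1⟩, h2⟩
      exact ⟨s, hs, t, h1, h2⟩

/-- Every language recognised by such an automaton with finite state set is regular. -/
theorem NFA1.isRegular [Fintype Q] (A : NFA1 σ Q) : A.lang.IsRegular := by
  let M : NFA σ Q := ⟨fun q a => {s | (q, a, s) ∈ A.tr}, {A.start}, A.acc⟩
  have key : ∀ (w : List σ) (S : Set Q) (r : Q), r ∈ M.evalFrom S w ↔ ∃ q ∈ S, A.Run q w r := by
    intro w
    induction w with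
    | nil => intro S r; simp [NFA1.Run, NFA.evalFrom]
    | cons a w ih =>
      intro S r
      rw [NFA.evalFrom_cons, ih]
      simp only [NFA.mem_stepSet, NFA1.Run]
      constructor
      · rintro ⟨s, ⟨q, hq, h1⟩, h2⟩
        exact ⟨q, hq, s, h1, h2⟩
      · rintro ⟨q, hq, s, h1, h2⟩
        exact ⟨s, ⟨q, hq, h1⟩, h2⟩
  have hacc : M.accepts = A.lang := by
    ext w
    rw [NFA.mem_accepts]
    constructor
    · rintro ⟨f, hf, h⟩
      obtain ⟨q, hq, h2⟩ := (key _ _ _).1 h
      have hq' : q = A.start := hq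
      subst hq'
      exact ⟨f, hf, h2⟩
    · rintro ⟨f, hf, h⟩
      exact ⟨f, hf, (key _ _ _).2 ⟨A.start, rfl, h⟩⟩
  rw [← hacc]
  exact ⟨Set Q, inferInstance, M.toDFA, M.toDFA_correct⟩

/-- A description of the accepted words by residual predicates. -/
theorem NFA1.lang_eq_of_ok (A : NFA1 σ Q) (Ok : Q → List σ → Prop)
    (h0 : ∀ q, Ok q [] ↔ q ∈ A.acc)
    (h1 : ∀ q a w, Ok q (a :: w) ↔ ∃ s, (q, a, s) ∈ A.tr ∧ Ok s w) (w : List σ) :
    w ∈ A.lang ↔ Ok A.start w := by
  have key : ∀ (w : List σ) (q : Q), (∃ f ∈ A.acc, A.Run q w f) ↔ Ok q w := by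
    intro w
    induction w with
    | nil => intro q; rw [h0]; simp [NFA1.Run]
    | cons a w ih =>
      intro q
      rw [h1]
      constructor
      · rintro ⟨f, hf, s, hs, hr⟩
        exact ⟨s, hs, (ih s).1 ⟨f, hf, hr⟩⟩
      · rintro ⟨s, hs, hr⟩
        obtain ⟨f, hf, hr'⟩ := (ih s).2 hr
        exact ⟨f, hf, s, hs, hr'⟩
  exact key w A.start

end Q222.TN
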