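import Pool.Agent.Q222.TN.Defs

namespace Q222.TN

section
variable {H I J σ Q : Type} (α : Fin 3 → H → I) (β : Fin 3 → H → J)

/-- Incidence. -/
def T (i : I) (j : J) : Prop := ∃ x h y, α x h = i ∧ β y h = j

variable (μ : I → List σ) (ν : J → List σ)

/-- The word of a pair. -/
def W (i : I) (j : J) : List σ := (μ i ++ μ i) ++ (ν j ++ ν j)

/-- Prefix sets. -/
def Ain (A : NFA1 σ Q) (l : ℕ) (q : Q) (i : I) : Prop :=
  ∃ j', T α β i j' ∧ A.Run A.start ((W μ ν i j').take l) q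

/-- Suffix sets. -/
def Bout (A : NFA1 σ Q) (l : ℕ) (q : Q) (j : J) : Prop :=
  ∃ i', T α β i' j ∧ ∃ f ∈ A.acc, A.Run q ((W μ ν i' j).drop l) f

variable {μ ν} {k : ℕ} (hμl : ∀ i, (μ i).length = k) (hνl : ∀ j, (ν j).length = k)

include hμl hνl

theorem W_len (i : I) (j : J) : (W μ ν i j).length = 4 * k := by
  simp only [W, List.length_append, hμl, hνl]; omega

theorem W_take (i : I) (j : J) : (W μ ν i j).take k = μ i := by
  rw [W, List.append_assoc, List.take_left' (hμl i)]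

theorem W_drop3 (i : I) (j : J) : (W μ ν i j).drop (3 * k) = ν j := by
  rw [W, ← List.append_assoc, List.drop_left']
  simp only [List.length_append, hμl, hνl]; omega

/-- second block -/
theorem W_drop1 (i : I) (j : J) : (W μ ν i j).drop k = μ i ++ (ν j ++ ν j) := by
  rw [W, List.append_assoc, List.drop_left' (hμl i)]

theorem W_take3 (i : I) (j : J) : (W μ ν i j).take (3 * k) = (μ i ++ μ i) ++ ν j := by
  rw [W, ← List.append_assoc, List.take_left']
  simp only [List.length_append, hμl, hνl]; omega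

variable (A : NFA1 σ Q) (hA : ∀ w, w ∈ A.lang ↔ ∃ x h y, w = W μ ν (α x h) (β y h))

include hA

/-- Gluing of a prefix and a suffix. -/
theorem glue {q : Q} {u v : List σ} (h1 : A.Run A.start u q) (h2 : ∃ f ∈ A.acc, A.Run q v f) :
    ∃ i j, T α β i j ∧ u ++ v = W μ ν i j := by
  obtain ⟨f, hf, h2⟩ := h2
  have : u ++ v ∈ A.lang := ⟨f, hf, (A.run_append u v _ _).2 ⟨q, h1, h2⟩⟩
  obtain ⟨x, h, y, e⟩ := (hA _).1 this
  exact ⟨_, _, ⟨x, h, y, rfl, rfl⟩, e⟩

theorem level {q : Q} {l1 l2 : ℕ} {i : I} {j : J} (hl1 : l1 ≤ 4 * k) (hl2 : l2 ≤ 4 * k)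
    (h1 : Ain α β μ ν A l1 q i) (h2 : Bout α β μ ν A l2 q j) : l1 = l2 := by
  obtain ⟨j', -, h1⟩ := h1
  obtain ⟨i', -, h2⟩ := h2
  obtain ⟨i'', j'', -, e⟩ := glue α β hμl hνl A hA h1 h2
  have := congrArg List.length e
  simp only [List.length_append, List.length_take, List.length_drop, W_len hμl hνl] at this
  omega

variable (hμ : Function.Injective μ) (hν : Function.Injective ν)

include hμ hν

theorem rectT {q : Q} {l : ℕ} {i : I} {j : J} (hl1 : k ≤ l) (hl2 : l ≤ 3 * k)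
    (h1 : Ain α β μ ν A l q i) (h2 : Bout α β μ ν A l q j) : T α β i j := by
  obtain ⟨j', -, h1⟩ := h1
  obtain ⟨i', -, h2⟩ := h2
  obtain ⟨i'', j'', ht, e⟩ := glue α β hμl hνl A hA h1 h2
  have e1 : i = i'' := by
    apply hμ
    have := congrArg (List.take k) e
    rw [W_take hμl hνl, List.take_append_of_le_length, List.take_take, min_eq_left hl1,
      W_take hμl hνl] at this
    · exact this
    · rw [List.length_take, W_len hμl hνl]
      omega
  have e2 : j = j'' := by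
    apply hν
    have := congrArg (List.drop (3 * k)) e
    rw [W_drop3 hμl hνl, List.drop_append, List.length_take, W_len hμl hνl,
      min_eq_left (by omega), List.drop_drop,
      List.drop_of_length_le (by rw [List.length_take, W_len hμl hνl]; omega), List.nil_append,
      show l + (3 * k - l) = 3 * k by omega, W_drop3 hμl hνl] at this
    exact this
  rw [e1, e2]
  exact ht

theorem base {q : Q} {i i0 : I} {j0 : J} (h1 : Ain α β μ ν A k q i)
    (h2 : ∃ f ∈ A.acc, A.Run q ((W μ ν i0 j0).drop k) f) : i = i0 := by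
  obtain ⟨j', -, h1⟩ := h1
  obtain ⟨i'', j'', ht, e⟩ := glue α β hμl hνl A hA h1 h2
  rw [W_take hμl hνl, W_drop1 hμl hνl, W, List.append_assoc] at e
  have e1 := List.append_inj e (by rw [hμl, hμl])
  have e2 := List.append_inj e1.2 (by rw [hμl, hμl])
  exact hμ (e1.1.trans e2.1.symm)

theorem top {q : Q} {j j0 : J} {i0 : I} (h1 : A.Run A.start ((W μ ν i0 j0).take (3 * k)) q)
    (h2 : Bout α β μ ν A (3 * k) q j) : j = j0 := by
  obtain ⟨i', -, h2⟩ := h2
  obtain ⟨i'', j'', ht, e⟩ := glue α β hμl hνl A hA h1 h2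
  rw [W_take3 hμl hνl, W_drop3 hμl hνl, W, List.append_assoc] at e
  have e1 := List.append_inj e (by simp only [List.length_append, hμl])
  have e2 := List.append_inj e1.2 (by rw [hνl, hνl])
  exact hν (e2.2.trans e2.1.symm)

/-- Good nodes. -/
def GoodNode (α : Fin 3 → H → I) (β : Fin 3 → H → J) (μ : I → List σ) (ν : J → List σ)
    (A : NFA1 σ Q) (k : ℕ) (i : I) (j : J) (q : Q) : Prop :=
  ∃ l, k ≤ l ∧ l ≤ 3 * k ∧ Ain α β μ ν A l q i ∧ Bout α β μ ν A l q j ∧
    (∃ i', i' ≠ i ∧ Ain α β μ ν A l q i') ∧ (∃ j', j' ≠ j ∧ Bout α β μ ν A l q j')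

/-- Private transitions. -/
def Priv (α : Fin 3 → H → I) (β : Fin 3 → H → J) (μ : I → List σ) (ν : J → List σ)
    (A : NFA1 σ Q) (k : ℕ) (i : I) (j : J) (e : Q × σ × Q) : Prop :=
  e ∈ A.tr ∧ ∃ l, k ≤ l ∧ l + 1 ≤ 3 * k ∧ Ain α β μ ν A l e.1 i ∧ Bout α β μ ν A l e.1 j ∧
    (∀ i', Ain α β μ ν A l e.1 i' → i' = i) ∧ Bout α β μ ν A (l + 1) e.2.2 j ∧
    (∀ j', Bout α β μ ν A (l + 1) e.2.2 j' → j' = j)

theorem dich (hk : 0 < k) {i : I} {j : J} (hT : T α β i j) :
    (∃ q, GoodNode α β μ ν A k i j q) ∨ ∃ e, Priv α β μ ν A k i j e := by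
  by_contra hcon
  push Not at hcon
  obtain ⟨hc1, hc2⟩ := hcon
  have key : ∀ n, n ≤ 2 * k → ∃ q, A.Run A.start ((W μ ν i j).take (k + n)) q ∧
      (∃ f ∈ A.acc, A.Run q ((W μ ν i j).drop (k + n)) f) ∧
      (∀ i', Ain α β μ ν A (k + n) q i' → i' = i) ∧
      (0 < n → ¬ ∀ j', Bout α β μ ν A (k + n) q j' → j' = j) := by
    intro n
    induction n with
    | zero =>
      intro _
      have hw : W μ ν i j ∈ A.lang := by
        obtain ⟨x, h, y, rfl, rfl⟩ := hT
        exact (hA _).2 ⟨x, h, y, rfl⟩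
      obtain ⟨f, hf, hr⟩ := hw
      rw [← List.take_append_drop k (W μ ν i j), A.run_append] at hr
      obtain ⟨q, h1, h2⟩ := hr
      refine ⟨q, h1, ⟨f, hf, h2⟩, ?_, fun h => absurd h (lt_irrefl _)⟩
      intro i' hi'
      exact base α β hμl hνl A hA hμ hν hi' ⟨f, hf, h2⟩
    | succ n ih =>
      intro hn
      obtain ⟨q, h1, ⟨f, hf, h2⟩, h3, -⟩ := ih (by omega)
      have hlen : k + n < (W μ ν i j).length := by rw [W_len hμl hνl]; omega
      rw [List.drop_eq_getElem_cons hlen] at h2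
      obtain ⟨q', ht, h2'⟩ := h2
      have htake : (W μ ν i j).take (k + n + 1) = (W μ ν i j).take (k + n) ++
          [(W μ ν i j)[k + n]] := by
        rw [List.take_append_getElem hlen]
      have h1' : A.Run A.start ((W μ ν i j).take (k + n + 1)) q' := by
        rw [htake, A.run_append]
        exact ⟨q, h1, q', ht, rfl⟩
      have hin : Ain α β μ ν A (k + n) q i := ⟨j, hT, h1⟩
      have hout : Bout α β μ ν A (k + n) q j := ⟨i, hT, f, hf, by
        rw [List.drop_eq_getElem_cons hlen]; exact ⟨q', ht, h2'⟩⟩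
      have hin' : Ain α β μ ν A (k + n + 1) q' i := ⟨j, hT, h1'⟩
      have hout' : Bout α β μ ν A (k + n + 1) q' j := ⟨i, hT, f, hf, h2'⟩
      have hB : ¬ ∀ j', Bout α β μ ν A (k + n + 1) q' j' → j' = j := by
        intro hB
        exact hc2 (q, (W μ ν i j)[k + n], q') ⟨ht, k + n, by omega, by omega, hin, hout, h3,
          hout', hB⟩
      refine ⟨q', h1', ⟨f, hf, h2'⟩, ?_, fun _ => hB⟩
      by_contra hA'
      push Not at hA' hB
      obtain ⟨i', hi1, hi2⟩ := hA'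
      obtain ⟨j', hj1, hj2⟩ := hB
      exact hc1 q' ⟨k + n + 1, by omega, by omega, hin', hout', ⟨i', hi2, hi1⟩, ⟨j', hj2, hj1⟩⟩
  obtain ⟨q, h1, -, -, h4⟩ := key (2 * k) le_rfl
  rw [show k + 2 * k = 3 * k by ring] at h1 h4
  apply h4 (by omega)
  intro j' hj'
  exact top α β hμl hνl A hA hμ hν h1 hj'

variable (hU : ∀ x x' y y' h h', α x h = α x' h' → β y h = β y' h' → x = x' ∧ y = y' ∧ h = h')
  (hK : ∀ x1 x2 x1' x2' y1 y2 y1' y2' h11 h12 h21 h22, α x1 h11 = α x1' h12 →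
    α x2 h21 = α x2' h22 → β y1 h11 = β y1' h21 → β y2 h12 = β y2' h22 →
    α x1 h11 ≠ α x2 h21 → β y1 h11 ≠ β y2 h12 → h11 = h12 ∧ h11 = h21 ∧ h11 = h22)

include hU hK

omit hμl hνl hA hμ hν in
/-- In a rectangle of incidences with at least two rows and two columns all incidences lie in the
same block. -/
theorem sameBlock {P : I → Prop} {R : J → Prop} (hPR : ∀ i j, P i → R j → T α β i j)
    {x1 x2 y1 y2 : Fin 3} {h1 h2 : H}
    (a1 : P (α x1 h1)) (a2 : P (α x2 h2)) (b1 : R (β y1 h1)) (b2 : R (β y2 h2))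
    (a3 : ∃ i', i' ≠ α x1 h1 ∧ P i') (b3 : ∃ j', j' ≠ β y1 h1 ∧ R j') : h1 = h2 := by
  -- the basic step
  have step : ∀ {i' : I} {j' : J}, P i' → R j' → i' ≠ α x1 h1 → j' ≠ β y1 h1 →
      (∃ x y, α x h1 = i' ∧ β y h1 = j') := by
    intro i' j' p1 p2 n1 n2
    obtain ⟨x12, h12, y12, e1, e2⟩ := hPR _ _ a1 p2
    obtain ⟨x21, h21, y21, e3, e4⟩ := hPR _ _ p1 b1
    obtain ⟨x22, h22, y22, e5, e6⟩ := hPR _ _ p1 p2
    have := hK x1 x21 x12 x22 y1 y12 y21 y22 h1 h12 h21 h22 e1.symm (e3.trans e5.symm)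
      e4.symm (e2.trans e6.symm) (by rw [e3]; exact n1.symm) (by rw [e2]; exact n2.symm)
    obtain ⟨-, -, rfl⟩ := this
    exact ⟨x22, y22, e5, e6⟩
  by_cases hi : α x2 h2 = α x1 h1
  · by_cases hj : β y2 h2 = β y1 h1
    · exact (hU _ _ _ _ _ _ hi.symm hj.symm).2.2
    · obtain ⟨i', n1, p1⟩ := a3
      obtain ⟨x, y, e1, e2⟩ := step p1 b2 n1 hj
      exact (hU x1 x2 y y2 h1 h2 hi.symm e2).2.2
  · by_cases hj : β y2 h2 = β y1 h1
    · obtain ⟨j', n1, p1⟩ := b3
      obtain ⟨x, y, e1, e2⟩ := step a2 p1 hi n1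
      exact (hU x x2 y1 y2 h1 h2 e1 hj.symm).2.2
    · obtain ⟨x, y, e1, e2⟩ := step a2 b2 hi hj
      exact (hU x x2 y y2 h1 h2 e1 e2).2.2

theorem lower [Fintype H] [Fintype Q] (hk : 0 < k) :
    9 * Fintype.card H ≤ 9 * Fintype.card Q + A.tr.card := by
  classical
  let Good : H × Fin 3 × Fin 3 → (Q × Fin 3 × Fin 3) ⊕ A.tr → Prop := fun e s =>
    match s with
    | .inl (q, x, y) => x = e.2.1 ∧ y = e.2.2 ∧
        GoodNode α β μ ν A k (α e.2.1 e.1) (β e.2.2 e.1) q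
    | .inr t => Priv α β μ ν A k (α e.2.1 e.1) (β e.2.2 e.1) t.1
  have hex : ∀ e, ∃ s, Good e s := by
    rintro ⟨h, x, y⟩
    rcases dich α β hμl hνl A hA hμ hν hk (i := α x h) (j := β y h) ⟨x, h, y, rfl, rfl⟩ with
      ⟨q, hq⟩ | ⟨t, ht⟩
    · exact ⟨.inl (q, x, y), rfl, rfl, hq⟩
    · exact ⟨.inr ⟨t, ht.1⟩, ht⟩
  choose f hf using hex
  have hinj : Function.Injective f := by
    rintro ⟨h, x, y⟩ ⟨h', x', y'⟩ e
    have g1 := hf (h, x, y)
    have g2 := hf (h', x', y')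
    rw [← e] at g2
    generalize f (h, x, y) = s at g1 g2
    rcases s with ⟨q, u, v⟩ | t
    · obtain ⟨c1, c2, l, c3, c4, c5, c6, c7, c8⟩ := g1
      obtain ⟨d1, d2, l', d3, d4, d5, d6, d7, d8⟩ := g2
      have hl : l = l' := level α β hμl hνl A hA (by omega) (by omega) c5 d6
      subst hl
      have hh : h = h' := sameBlock α β hU hK
        (P := Ain α β μ ν A l q) (R := Bout α β μ ν A l q)
        (fun i j p1 p2 => rectT α β hμl hνl A hA hμ hν c3 c4 p1 p2) c5 d5 c6 d6 c7 c8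
      simp only at c1 c2 d1 d2
      rw [hh, ← c1, ← c2, ← d1, ← d2]
    · obtain ⟨-, l, c3, c4, c5, c6, c7, c8, c9⟩ := g1
      obtain ⟨-, l', d3, d4, d5, d6, d7, d8, d9⟩ := g2
      have hl : l = l' := level α β hμl hνl A hA (by omega) (by omega) c5 d6
      subst hl
      have e1 := c7 _ d5
      have e2 := c9 _ d8
      obtain ⟨a1, a2, a3⟩ := hU _ _ _ _ _ _ e1 e2
      simp only at a1 a2 a3
      rw [a1, a2, a3]
  have := Fintype.card_le_of_injective f hinj
  simp only [Fintype.card_prod, Fintype.card_fin, Fintype.card_sum, Fintype.card_coe] at this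
  omega

end

end Q222.TN
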